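import Pool.Agent.Helper10.RC.Basic

/-!
# MP_b55b7c_an, packet NoMinN: no minimal projections
-/

open scoped ENNReal NNReal InnerProductSpace ComplexOrder
open Filter Topology

attribute [-instance] CStarMatrix.instAlgebra CStarMatrix.instModule CStarMatrix.instSMul
  CStarMatrix.instMulAction CStarMatrix.instDistribMulAction

noncomputable section
namespace RC
universe u

section
variable {H : Type u} [NormedAddCommGroup H] [InnerProductSpace ℂ H] [CompleteSpace H]

theorem nmn_star_mem {S : Set (H →L[ℂ] H)} (hS : ∀ x ∈ S, star x ∈ S) {x : H →L[ℂ] H}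
    (hx : x ∈ S.centralizer) : star x ∈ S.centralizer := by
  rw [Set.mem_centralizer_iff] at hx ⊢
  intro m hm
  have h := hx (star m) (hS m hm)
  have h2 := congrArg star h
  simp only [star_mul, star_star] at h2
  exact h2.symm

theorem nmn_adj (x : H →L[ℂ] H) (u v : H) : ⟪x u, v⟫_ℂ = ⟪u, (star x) v⟫_ℂ := by
  rw [ContinuousLinearMap.star_eq_adjoint, ContinuousLinearMap.adjoint_inner_right]

theorem nmn_adj' (x : H →L[ℂ] H) (u v : H) : ⟪u, x v⟫_ℂ = ⟪(star x) u, v⟫_ℂ := by
  rw [ContinuousLinearMap.star_eq_adjoint, ContinuousLinearMap.adjoint_inner_left]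

theorem nmn_proj {f : H →L[ℂ] H} (hf : IsStarProjection f) (ξ : H) :
    ⟪ξ, f ξ⟫_ℂ = ((‖f ξ‖ ^ 2 : ℝ) : ℂ) := by
  have h1 : f (f ξ) = f ξ := by
    have := congrArg (fun g : H →L[ℂ] H => g ξ) hf.isIdempotentElem.eq
    simpa using this
  have h2 : star f = f := hf.isSelfAdjoint.star_eq
  have h3 : ⟪f ξ, f ξ⟫_ℂ = ⟪ξ, f ξ⟫_ℂ := by
    rw [nmn_adj, h2, h1]
  rw [← h3, inner_self_eq_norm_sq_to_K]
  push_cast
  rfl

/-- the orthonormal families in `N f ξ` are bounded -/
theorem nmn_bound {S : Set (H →L[ℂ] H)} {ξ : H} (hF : FV S ξ) {f : H →L[ℂ] H}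
    (hfN : f ∈ S.centralizer) (hf : IsStarProjection f) (hf0 : f ≠ 0)
    (hc : ∀ x ∈ S.centralizer, ∃ c : ℂ, f * x * f = c • f) (m : ℕ) (x : Fin m → (H →L[ℂ] H))
    (hx : ∀ i, x i ∈ S.centralizer) (ho : Orthonormal ℂ fun i => x i (f ξ)) :
    (m : ℝ) * ‖f ξ‖ ^ 2 ≤ 1 := by
  classical
  have hs : star f = f := hf.isSelfAdjoint.star_eq
  have hff : f * f = f := hf.isIdempotentElem.eq
  have hfξ : f ξ ≠ 0 := fun h => hf0 (hF.sep f hfN h)
  set ν : ℝ := ‖f ξ‖ ^ 2 with hν
  have hνpos : 0 < ν := by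
    have := norm_pos_iff.2 hfξ
    positivity
  have hνc : (ν : ℂ) ≠ 0 := by exact_mod_cast hνpos.ne'
  -- `w i = x i f`
  have hw : ∀ i l, star (x i * f) * (x l * f) = (if i = l then ((ν : ℂ)⁻¹) else 0) • f := by
    intro i l
    have hmem : star (x i) * x l ∈ S.centralizer :=
      Set.mul_mem_centralizer (nmn_star_mem hF.star (hx i)) (hx l)
    obtain ⟨c, hc'⟩ := hc _ hmem
    have h1 : star (x i * f) * (x l * f) = f * (star (x i) * x l) * f := by
      rw [star_mul, hs]
      simp only [mul_assoc]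
    rw [h1, hc']
    congr 1
    have h2 : ⟪x i (f ξ), x l (f ξ)⟫_ℂ = c * ν := by
      have h3 : ⟪x i (f ξ), x l (f ξ)⟫_ℂ = ⟪ξ, (f * (star (x i) * x l) * f) ξ⟫_ℂ := by
        rw [nmn_adj (x i), nmn_adj f, hs]
        rfl
      rw [h3, hc', ContinuousLinearMap.smul_apply, inner_smul_right, nmn_proj hf]
    have h4 := orthonormal_iff_ite.1 ho i l
    rw [h2] at h4
    by_cases hil : i = l
    · rw [if_pos hil] at h4 ⊢
      field_simp
      exact h4
    · rw [if_neg hil] at h4 ⊢
      rcases mul_eq_zero.1 h4 with h | h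
      · exact h
      · exact absurd h hνc
  -- the projection
  set P : H →L[ℂ] H := ∑ i, (ν : ℂ) • ((x i * f) * star (x i * f)) with hP
  have hPs : star P = P := by
    rw [hP, star_sum]
    refine Finset.sum_congr rfl fun i _ => ?_
    rw [star_smul, star_mul, star_star]
    simp
  have hPP : P * P = P := by
    rw [hP, Finset.sum_mul]
    refine Finset.sum_congr rfl fun i _ => ?_
    rw [Finset.mul_sum, Finset.sum_eq_single i]
    · rw [smul_mul_smul_comm]
      have h1 : x i * f * star (x i * f) * (x i * f * star (x i * f)) =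
          x i * f * (star (x i * f) * (x i * f)) * star (x i * f) := by
        simp only [mul_assoc]
      rw [h1, hw i i, if_pos rfl, mul_smul_comm, smul_mul_assoc, smul_smul]
      have h2 : x i * f * f = x i * f := by rw [mul_assoc, hff]
      rw [h2]
      congr 1
      field_simp
    · intro l _ hl
      rw [smul_mul_smul_comm]
      have h1 : x i * f * star (x i * f) * (x l * f * star (x l * f)) =
          x i * f * (star (x i * f) * (x l * f)) * star (x l * f) := by
        simp only [mul_assoc]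
      rw [h1, hw i l, if_neg (Ne.symm hl)]
      simp
    · intro h
      exact absurd (Finset.mem_univ i) h
  have hPproj : IsStarProjection P := ⟨hPP, hPs⟩
  have htr : ⟪ξ, P ξ⟫_ℂ = (m : ℂ) * ν := by
    rw [hP, ContinuousLinearMap.sum_apply, inner_sum]
    have h1 : ∀ i ∈ (Finset.univ : Finset (Fin m)),
        ⟪ξ, ((ν : ℂ) • (x i * f * star (x i * f))) ξ⟫_ℂ = ν := by
      intro i _
      rw [ContinuousLinearMap.smul_apply, inner_smul_right]
      have hxf : x i * f ∈ S.centralizer := Set.mul_mem_centralizer (hx i) hfN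
      have h2 := hF.trace (x i * f) hxf (star (x i * f)) (nmn_star_mem hF.star hxf)
      have h3 : ⟪ξ, (x i * f * star (x i * f)) ξ⟫_ℂ = ⟪ξ, (star (x i * f) * (x i * f)) ξ⟫_ℂ := h2
      rw [h3, hw i i, if_pos rfl, ContinuousLinearMap.smul_apply, inner_smul_right, nmn_proj hf]
      rw [← hν]
      field_simp
    rw [Finset.sum_congr rfl h1]
    simp
  have h5 := nmn_proj hPproj ξ
  rw [htr] at h5
  have h6 : (m : ℝ) * ν = ‖P ξ‖ ^ 2 := by exact_mod_cast h5
  rw [h6]
  have h7 : ‖P ξ‖ ^ 2 ≤ ‖P ξ‖ := by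
    have h8 : ‖⟪ξ, P ξ⟫_ℂ‖ ≤ ‖ξ‖ * ‖P ξ‖ := norm_inner_le_norm _ _
    rw [nmn_proj hPproj, hF.norm, one_mul] at h8
    rw [Complex.norm_real, Real.norm_of_nonneg (by positivity)] at h8
    exact h8
  have h9 : 0 ≤ ‖P ξ‖ := norm_nonneg _
  nlinarith

/-- a subspace in which the orthonormal families are bounded is finite dimensional -/
theorem nmn_findim (K : Submodule ℂ H) (m : ℕ)
    (h : ∀ u : Fin (m + 1) → H, Orthonormal ℂ u → ∃ i, u i ∉ K) : FiniteDimensional ℂ K := by
  by_contra hcon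
  have h1 : Cardinal.aleph0 ≤ Module.rank ℂ K := by
    by_contra h2
    rw [not_le] at h2
    exact hcon (Module.rank_lt_aleph0_iff.1 h2)
  have h2 : ((m + 1 : ℕ) : Cardinal) ≤ Module.rank ℂ K :=
    (Cardinal.nat_lt_aleph0 _).le.trans h1
  obtain ⟨s, hs, hli⟩ := le_rank_iff_exists_linearIndependent_finset.1 h2
  -- the span in `H`
  have hli2 : LinearIndependent ℂ (fun x : s => ((x : K) : H)) :=
    hli.map' K.subtype (Submodule.ker_subtype K)
  set L : Submodule ℂ H := Submodule.span ℂ (Set.range fun x : s => ((x : K) : H)) with hL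
  have hfin : FiniteDimensional ℂ L := FiniteDimensional.span_of_finite ℂ (Set.finite_range _)
  have hrank : Module.finrank ℂ L = m + 1 := by
    rw [hL, finrank_span_eq_card hli2]
    simp [hs]
  have hLK : L ≤ K := by
    rw [hL, Submodule.span_le]
    rintro _ ⟨x, rfl⟩
    exact (x : K).2
  let b := (stdOrthonormalBasis ℂ L).reindex (finCongr hrank)
  obtain ⟨i, hi⟩ := h (fun i => ((b i : L) : H)) (b.orthonormal.comp_linearIsometry L.subtypeₗᵢ)
  exact hi (hLK (b i).2)

end

theorem noMinNP (h1 : MinP.{u}) (h2 : RepFVP.{u}) : NoMinNP.{u} := by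
  intro A _ _ _ φ H _ _ _ π ρ ξ hrep hsimp hinf f hfN hf hf0
  by_contra hno
  obtain ⟨hF, hπ⟩ := h2 A φ H π ρ ξ hrep
  have hmin : ∀ g ∈ (Set.range ρ).centralizer, IsStarProjection g → f * g = g →
      g = 0 ∨ g = f := by
    intro g hg hgp hfg
    by_contra hc
    rw [not_or] at hc
    exact hno ⟨g, hg, hgp, hfg, hc.1, hc.2⟩
  have hc := h1 H (Set.range ρ) hF.star f hfN hf hmin
  have hfξ : f ξ ≠ 0 := fun h => hf0 (hF.sep f hfN h)
  -- the subspace
  let ev : (H →L[ℂ] H) →ₗ[ℂ] H :=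
    { toFun := fun x => x (f ξ)
      map_add' := fun _ _ => rfl
      map_smul' := fun _ _ => rfl }
  let K : Submodule ℂ H :=
    (Subalgebra.toSubmodule (Subalgebra.centralizer ℂ (Set.range ρ))).map ev
  have hK : ∀ v, v ∈ K ↔ ∃ x ∈ (Set.range ρ).centralizer, x (f ξ) = v := by
    intro v
    rfl
  obtain ⟨m, hm⟩ := exists_nat_gt (1 / ‖f ξ‖ ^ 2)
  have hpos : 0 < ‖f ξ‖ ^ 2 := by
    have := norm_pos_iff.2 hfξ
    positivity
  have hKfin : FiniteDimensional ℂ K := by
    refine nmn_findim K m fun u hu => ?_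
    by_contra hcon
    push Not at hcon
    choose x hx hxu using fun i => (hK (u i)).1 (hcon i)
    have hu2 : Orthonormal ℂ fun i => x i (f ξ) := by
      have : (fun i => x i (f ξ)) = u := funext hxu
      rw [this]
      exact hu
    have h3 := nmn_bound hF hfN hf hf0 hc (m + 1) x hx hu2
    rw [div_lt_iff₀ hpos] at hm
    push_cast at h3
    nlinarith
  have hinv : ∀ a : A, ∀ v ∈ K, (π a : H →ₗ[ℂ] H) v ∈ K := by
    intro a v hv
    obtain ⟨x, hx, rfl⟩ := (hK v).1 hv
    exact (hK _).2 ⟨π a * x, Set.mul_mem_centralizer (hπ a) hx, rfl⟩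
  let Φ : A →ₗ[ℂ] (K →ₗ[ℂ] K) :=
    { toFun := fun a => (π a : H →ₗ[ℂ] H).restrict (hinv a)
      map_add' := by
        intro a b
        ext v
        simp [LinearMap.restrict_apply]
      map_smul' := by
        intro c a
        ext v
        simp [LinearMap.restrict_apply] }
  have hΦ : ∀ (a : A) (v : K), ((Φ a v : K) : H) = π a v := fun a v => rfl
  have hinj : Function.Injective Φ := by
    rw [← LinearMap.ker_eq_bot, LinearMap.ker_eq_bot']
    intro a ha
    by_contra ha0
    obtain ⟨n, p, q, hpq⟩ := hsimp.2 a ha0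
    have hfK : f ξ ∈ K := (hK _).2 ⟨1, Set.one_mem_centralizer, rfl⟩
    have h3 : π 1 (f ξ) = 0 := by
      rw [← hpq, map_sum, ContinuousLinearMap.sum_apply]
      refine Finset.sum_eq_zero fun i _ => ?_
      rw [map_mul, map_mul]
      change π (p i) (π a (π (q i) (f ξ))) = 0
      have h4 : π a (π (q i) (f ξ)) = 0 := by
        have h5 := hΦ a ⟨π (q i) (f ξ), hinv (q i) _ hfK⟩
        rw [ha] at h5
        exact h5.symm
      rw [h4, map_zero]
    rw [map_one] at h3
    exact hfξ h3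
  exact hinf (FiniteDimensional.of_injective Φ hinj)

end RC
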