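import Pool.Agent.Helper5.RC.NoMinN

/-!
# MP_b55b7c_an, packet TwoNorm
-/

open scoped ENNReal NNReal InnerProductSpace ComplexOrder
open Filter Topology

attribute [-instance] CStarMatrix.instAlgebra CStarMatrix.instModule CStarMatrix.instSMul
  CStarMatrix.instMulAction CStarMatrix.instDistribMulAction

noncomputable section
namespace RC
universe u

theorem twoNormP : TwoNormP.{u} := by
  intro H _ _ _ S ξ hF
  have key : ∀ x ∈ S.centralizer, ‖(star x) ξ‖ = ‖x ξ‖ := by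
    intro x hx
    have hx' := nmn_star_mem hF.star hx
    have h1 : ⟪(star x) ξ, (star x) ξ⟫_ℂ = ⟪x ξ, x ξ⟫_ℂ := by
      rw [nmn_adj (star x), star_star, nmn_adj x]
      exact hF.trace x hx (star x) hx'
    rw [inner_self_eq_norm_sq_to_K, inner_self_eq_norm_sq_to_K] at h1
    have h2 : ‖(star x) ξ‖ ^ 2 = ‖x ξ‖ ^ 2 := by exact_mod_cast h1
    exact (sq_eq_sq₀ (norm_nonneg _) (norm_nonneg _)).1 h2
  refine ⟨key, ?_⟩
  intro x hx t ht y hy
  have hty : t * y ∈ S.centralizer := Set.mul_mem_centralizer ht hy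
  calc ‖(x * t * y) ξ‖ = ‖x ((t * y) ξ)‖ := by rw [mul_assoc]; rfl
    _ ≤ ‖x‖ * ‖(t * y) ξ‖ := x.le_opNorm _
    _ = ‖x‖ * ‖(star (t * y)) ξ‖ := by rw [key _ hty]
    _ = ‖x‖ * ‖(star y) ((star t) ξ)‖ := by rw [star_mul]; rfl
    _ ≤ ‖x‖ * (‖star y‖ * ‖(star t) ξ‖) := by
        gcongr
        exact (star y).le_opNorm _
    _ = ‖x‖ * ‖y‖ * ‖t ξ‖ := by rw [norm_star, key t ht, mul_assoc]

end RC
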