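import Pool.Agent.Helper70.RC.Goals

/-!
# Packet TW-DIAG (project TW of helper70, MP_c7dfba_nt)

Diagonalisation of symmetric matrices over a domain of characteristic not two.
-/

set_option autoImplicit false

namespace Pool.Agent.Helper5.RC

open Pool.Agent.Helper70.RC Module

universe u

theorem diag : DIAG.{u} := by
  intro A _ _ h2 n H hH
  let K := FractionRing A
  have hinj : Function.Injective (algebraMap A K) := IsFractionRing.injective A K
  have h2K : (2 : K) ≠ 0 := by
    intro h
    apply h2
    apply hinj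
    rw [map_ofNat, map_zero]
    exact h
  have : Invertible (2 : K) := invertibleOfNonzero h2K
  obtain ⟨HK, hHK⟩ : ∃ HK : Matrix (Fin n) (Fin n) K, HK = H.map (algebraMap A K) := ⟨_, rfl⟩
  obtain ⟨B, hB⟩ : ∃ B : LinearMap.BilinForm K (Fin n → K), B = HK.toBilin' := ⟨_, rfl⟩
  have hsym : B.IsSymm := by
    rw [hB, Matrix.isSymm_toBilin'_iff_isSymm]
    show HK.transpose = HK
    rw [hHK, ← Matrix.transpose_map, hH]
  obtain ⟨v, hv⟩ := LinearMap.BilinForm.exists_orthogonal_basis
    (LinearMap.BilinForm.isSymm_iff.1 hsym)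
  have hfr : finrank K (Fin n → K) = n := by simp
  obtain ⟨w, hw⟩ : ∃ w : Basis (Fin n) K (Fin n → K), ∀ i j, i ≠ j → B (w i) (w j) = 0 := by
    refine ⟨v.reindex (finCongr hfr), fun i j hij => ?_⟩
    rw [Basis.reindex_apply, Basis.reindex_apply]
    exact hv (fun h => hij ((finCongr hfr).symm.injective h))
  obtain ⟨P0, hP0⟩ : ∃ P0 : Matrix (Fin n) (Fin n) K, P0 = (Pi.basisFun K (Fin n)).toMatrix w :=
    ⟨_, rfl⟩
  have hdet0 : P0.det ≠ 0 := by
    intro h
    have h3 : P0 * w.toMatrix (Pi.basisFun K (Fin n)) = 1 := by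
      rw [hP0]
      exact Basis.toMatrix_mul_toMatrix_flip _ _
    have h4 := congrArg Matrix.det h3
    rw [Matrix.det_mul, h, zero_mul, Matrix.det_one] at h4
    exact zero_ne_one h4
  have hmul : P0.transpose * HK * P0 = LinearMap.BilinForm.toMatrix w B := by
    have h3 := LinearMap.BilinForm.toMatrix_mul_basis_toMatrix (Pi.basisFun K (Fin n)) w B
    have h4 : LinearMap.BilinForm.toMatrix (Pi.basisFun K (Fin n)) B = HK := by
      rw [hB]
      exact LinearMap.BilinForm.toMatrix'_toBilin' HK
    rw [h4, ← hP0] at h3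
    exact h3
  obtain ⟨b, hb⟩ := IsLocalization.exist_integer_multiples_of_finite (nonZeroDivisors A)
    (fun ij : Fin n × Fin n => P0 ij.1 ij.2)
  choose p hp using hb
  have hb0 : algebraMap A K (b : A) ≠ 0 := by
    intro h
    have := nonZeroDivisors.ne_zero b.2
    exact this (hinj (by rw [h, map_zero]))
  obtain ⟨P, hP⟩ : ∃ P : Matrix (Fin n) (Fin n) A, P = Matrix.of fun i j => p (i, j) := ⟨_, rfl⟩
  have hPmap : P.map (algebraMap A K) = (algebraMap A K (b : A)) • P0 := by
    ext i j
    rw [hP, Matrix.map_apply, Matrix.of_apply, hp (i, j), Matrix.smul_apply, Algebra.smul_def,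
      smul_eq_mul]
  have hall : (P.transpose * H * P).map (algebraMap A K) =
      (algebraMap A K (b : A) * algebraMap A K (b : A)) • LinearMap.BilinForm.toMatrix w B := by
    rw [Matrix.map_mul, Matrix.map_mul, Matrix.transpose_map, hPmap, ← hHK, Matrix.transpose_smul,
      Matrix.smul_mul, Matrix.smul_mul, Matrix.mul_smul, hmul, smul_smul]
  refine ⟨P, fun i => (P.transpose * H * P) i i, ?_, ?_⟩
  · intro h
    have h3 : (P.map (algebraMap A K)).det = 0 := by
      have h5 := (algebraMap A K).map_det P
      rw [h, map_zero] at h5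
      exact h5.symm
    rw [hPmap, Matrix.det_smul] at h3
    rcases mul_eq_zero.1 h3 with h4 | h4
    · exact pow_ne_zero _ hb0 h4
    · exact hdet0 h4
  · ext i j
    by_cases hij : i = j
    · subst hij
      rw [Matrix.diagonal_apply_eq]
    · rw [Matrix.diagonal_apply_ne _ hij]
      apply hinj
      have h3 := congrFun (congrFun hall i) j
      rw [Matrix.map_apply, Matrix.smul_apply, LinearMap.BilinForm.toMatrix_apply, hw i j hij,
        smul_zero] at h3
      rw [h3, map_zero]

end Pool.Agent.Helper5.RC
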